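import Pool.Agent.H.MP_fc2485_gt.Sv.Red

/-!
Forms of rank at most `k`: all minors of size `k + 1` vanish.
-/

set_option maxSynthPendingDepth 3

open Set Filter Topology InnerProductSpace
open scoped ContDiff

namespace Stek.Sv

open Stek Surface

variable {S : Type*} [TopologicalSpace S]

/-- rank at most `k` -/
def RkLe {m : ℕ} (Q : Bl m) (k : ℕ) : Prop :=
  ∀ v w : Fin (k + 1) → V m, Matrix.det (Matrix.of fun i j => Q (v i) (w j)) = 0

/-- a multilinear map is zero if it vanishes on the tuples of standard basis vectors -/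
private theorem Rk_ext {m k : ℕ} (L : V m →ₗ[ℂ] (Fin (k + 1) → ℂ))
    (h : ∀ v : Fin (k + 1) → Fin m,
      Matrix.det (Matrix.of fun i j => L (Pi.single (v i) 1) j) = 0)
    (v : Fin (k + 1) → V m) : Matrix.det (Matrix.of fun i j => L (v i) j) = 0 := by
  have h1 : ((Matrix.detRowAlternating (n := Fin (k + 1)) (R := ℂ)).toMultilinearMap.compLinearMap
      (fun _ : Fin (k + 1) => L)) = 0 := by
    refine Module.Basis.ext_multilinear (fun _ => Pi.basisFun ℂ (Fin m)) fun u => ?_
    rw [MultilinearMap.compLinearMap_apply, MultilinearMap.zero_apply]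
    have h2 := h u
    simp only [Pi.basisFun_apply]
    exact h2
  have h3 := congrArg (fun f => f v) h1
  simp only [MultilinearMap.compLinearMap_apply, MultilinearMap.zero_apply] at h3
  exact h3

/-- it suffices to consider the vectors of the standard basis (multilinearity) -/
theorem rkLe_basis {m : ℕ} {Q : Bl m} {k : ℕ} (h : ∀ v w : Fin (k + 1) → Fin m,
    Matrix.det (Matrix.of fun i j => Q (Pi.single (v i) 1) (Pi.single (w j) 1)) = 0) :
    RkLe Q k := by
  intro v w
  -- first the second argument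
  have h1 : ∀ (v : Fin (k + 1) → Fin m) (w : Fin (k + 1) → V m),
      Matrix.det (Matrix.of fun i j => Q (Pi.single (v i) 1) (w j)) = 0 := by
    intro v w
    rw [← Matrix.det_transpose]
    have h2 := Rk_ext (LinearMap.pi fun i : Fin (k + 1) =>
      ((Q (Pi.single (v i) 1) : V m →L[ℂ] ℂ) : V m →ₗ[ℂ] ℂ)) (fun u => by
        have h3 := h v u
        rw [← Matrix.det_transpose] at h3
        exact h3) w
    exact h2
  have h2 := Rk_ext (LinearMap.pi fun j : Fin (k + 1) =>
    (((ContinuousLinearMap.apply ℂ ℂ (w j)) : (V m →L[ℂ] ℂ) →L[ℂ] ℂ).comp Q : V m →ₗ[ℂ] ℂ))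
    (fun u => h1 u w) v
  exact h2

theorem isClosed_rkLe (m k : ℕ) : IsClosed {Q : Bl m | RkLe Q k} := by
  have h1 : {Q : Bl m | RkLe Q k} = ⋂ v : Fin (k + 1) → V m, ⋂ w : Fin (k + 1) → V m,
      {Q : Bl m | Matrix.det (Matrix.of fun i j => Q (v i) (w j)) = 0} := by
    ext Q
    simp only [RkLe, Set.mem_ofPred_eq, Set.mem_iInter]
  rw [h1]
  refine isClosed_iInter fun v => isClosed_iInter fun w => ?_
  refine isClosed_eq ?_ continuous_const
  refine Continuous.matrix_det ?_
  refine continuous_matrix fun i j => ?_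
  have h2 : Continuous fun Q : Bl m => Q (v i) :=
    (ContinuousLinearMap.apply ℂ (V m →L[ℂ] ℂ) (v i)).continuous
  exact (ContinuousLinearMap.apply ℂ ℂ (w j)).continuous.comp h2

/-- sums of at most `k` squares -/
theorem rkLe_sum {m n k : ℕ} (hn : n ≤ k) (L : Fin n → V m →L[ℂ] ℂ) {Q : Bl m}
    (hQ : ∀ v w, Q v w = ∑ i, L i v * L i w) : RkLe Q k := by
  intro v w
  by_contra hdet
  have h1 : (Matrix.of fun i j => Q (v i) (w j)) =
      (Matrix.of fun (i : Fin (k + 1)) (l : Fin n) => L l (v i)) *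
        (Matrix.of fun (l : Fin n) (j : Fin (k + 1)) => L l (w j)) := by
    ext i j
    rw [Matrix.mul_apply, Matrix.of_apply, hQ]
    rfl
  have h2 := Matrix.rank_of_isUnit (Matrix.of fun i j => Q (v i) (w j))
    ((Matrix.isUnit_iff_isUnit_det _).mpr (isUnit_iff_ne_zero.mpr hdet))
  rw [Fintype.card_fin] at h2
  have h3 := Matrix.rank_mul_le_left (Matrix.of fun (i : Fin (k + 1)) (l : Fin n) => L l (v i))
    (Matrix.of fun (l : Fin n) (j : Fin (k + 1)) => L l (w j))
  rw [← h1, h2] at h3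
  have h4 := Matrix.rank_le_width (Matrix.of fun (i : Fin (k + 1)) (l : Fin n) => L l (v i))
  omega

theorem rkLe_comp {m n k : ℕ} {Q : Bl m} (h : RkLe Q k) (T : V n →L[ℂ] V m) {Q' : Bl n}
    (hQ' : ∀ v w, Q' v w = Q (T v) (T w)) : RkLe Q' k := by
  intro v w
  simp only [hQ']
  exact h (fun i => T (v i)) (fun j => T (w j))

theorem rkLe_smul {m k : ℕ} {Q : Bl m} (h : RkLe Q k) (c : ℂ) : RkLe (c • Q) k := by
  intro v w
  have h1 : (Matrix.of fun i j => (c • Q) (v i) (w j)) =
      c • (Matrix.of fun i j => Q (v i) (w j)) := by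
    ext i j
    rfl
  rw [h1, Matrix.det_smul, h v w, mul_zero]

/-- all pairs in different components are covered by Gram forms of rank at most six -/
def Covd6 (M : Surface S) {m : ℕ} (e : Fin m → S → ℝ) : Prop :=
  ∀ C C', IsCC M C → IsCC M C' → C ≠ C' → ∀ p ∈ C, ∀ q ∈ C',
    ∃ Q, InK M e Q ∧ RkLe Q 6 ∧ Q (uv e p - uv e q) = 0

theorem Covd6.covd {M : Surface S} {m : ℕ} {e : Fin m → S → ℝ} (h : Covd6 M e) : Covd M e := by
  intro C C' hC hC' hne p hp q hq
  obtain ⟨Q, h1, -, h3⟩ := h C C' hC hC' hne p hp q hq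
  exact ⟨Q, h1, h3⟩

/-- there are `m` independent eigenfunctions for which all pairs are covered by forms of rank at
most six -/
def PM6 (M : Surface S) (σ : ℝ) (m : ℕ) : Prop :=
  ∃ e : Fin m → S → ℝ, (∀ i, M.IsSteklov σ (e i)) ∧ LinearIndependent ℝ e ∧ Covd6 M e

end Stek.Sv
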