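import Pool.Agent.H.MP_fc2485_gt.Sv.LocB
import Pool.Agent.H.MP_fc2485_gt.Sv6.Rk

/-!
The local lemma of case B for forms of rank at most six, in any dimension: same proof as
`caseB_local` (LocBA, LocBB, LocB), which gives at least seven indices `a_1 < ... < a_7` with
non-zero antidiagonal entries `Q(w_a, w_(n+2-a))` and `Q(w_a, w_b) = 0` for `a + b < n + 2`; the
matrix `Q(w_(a_i), w_(n+2-a_j))` is triangular with non-zero diagonal, contradiction to
`RkLe Q 6`. (`m ≤ 7` and `Z ≠ 0` are not needed.)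
-/

set_option maxSynthPendingDepth 3

open Set Filter Topology

namespace Stek.Sv

section Alg

open Finset

/-- an anti-triangular Gram matrix: at most six entries of the antidiagonal are not zero -/
private theorem locB6_lin {m : ℕ} {Q : Bl m} (hrk : RkLe Q 6) {N : ℕ} (w : ℕ → Fin m → ℂ)
    (hlow : ∀ a b, a + b < N → Q (w a) (w b) = 0) (A : Finset ℕ)
    (hA : ∀ a ∈ A, a ≤ N ∧ Q (w a) (w (N - a)) ≠ 0) : A.card ≤ 6 := by
  by_contra hcon
  obtain ⟨B, hBA, hB⟩ := Finset.exists_subset_card_eq (show 7 ≤ A.card by omega)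
  have h1 := hrk (fun i => w (B.orderEmbOfFin hB i)) (fun j => w (N - B.orderEmbOfFin hB j))
  have hmem : ∀ i, B.orderEmbOfFin hB i ∈ A := fun i => hBA (B.orderEmbOfFin_mem hB i)
  rw [Matrix.det_of_isLowerTriangular] at h1
  · rw [Finset.prod_eq_zero_iff] at h1
    obtain ⟨i, -, hi⟩ := h1
    exact (hA _ (hmem i)).2 hi
  · intro i j hij
    have h2 : i < j := hij
    have h3 : B.orderEmbOfFin hB i < B.orderEmbOfFin hB j := (B.orderEmbOfFin hB).lt_iff_lt.2 h2
    have h4 := (hA _ (hmem j)).1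
    rw [Matrix.of_apply]
    exact hlow _ _ (by omega)



private theorem locB6_rec {m : ℕ} (Q : (Fin m → ℂ) →L[ℂ] (Fin m → ℂ) →L[ℂ] ℂ) {f y : ℕ → Fin m → ℂ}
    {ε : ℕ → ℂ}
    (hy : ∀ n, y (n + 1) = (1 / ((n : ℂ) + 1)) • ∑ p ∈ antidiagonal n, ε p.1 • f p.2)
    (n : ℕ) (v : Fin m → ℂ) :
    Q (y (n + 1)) v = (1 / ((n : ℂ) + 1)) * ∑ p ∈ antidiagonal n, ε p.1 * Q (f p.2) v := by
  rw [hy n]
  simp [map_sum, _root_.sum_apply]

private theorem locB6_YF {m : ℕ} (Q : (Fin m → ℂ) →L[ℂ] (Fin m → ℂ) →L[ℂ] ℂ) {f y : ℕ → Fin m → ℂ}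
    {ε : ℕ → ℂ}
    (hy : ∀ n, y (n + 1) = (1 / ((n : ℂ) + 1)) • ∑ p ∈ antidiagonal n, ε p.1 • f p.2)
    (hYF : ∀ N, ∑ p ∈ antidiagonal N, Q (y p.1) (f p.2) = 0) (N : ℕ) :
    Q (y 0) (f (N + 1)) = -∑ p ∈ antidiagonal N, (1 / ((p.1 : ℂ) + 1)) *
      ∑ q ∈ antidiagonal p.1, ε q.1 * Q (f q.2) (f p.2) := by
  have h := hYF (N + 1)
  rw [Finset.Nat.sum_antidiagonal_succ] at h
  simp only [locB6_rec Q hy] at h
  linear_combination h

private theorem locB6_YF0 {m : ℕ} (Q : (Fin m → ℂ) →L[ℂ] (Fin m → ℂ) →L[ℂ] ℂ) {f y : ℕ → Fin m → ℂ}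
    (hYF : ∀ N, ∑ p ∈ antidiagonal N, Q (y p.1) (f p.2) = 0) :
    Q (y 0) (f 0) = 0 := by
  have h := hYF 0
  simpa using h

/-- the local lemma in terms of Taylor coefficients -/
private theorem locB6_alg {m : ℕ} (Q : Bl m) (hrk : RkLe Q 6)
    (hsym : ∀ v w, Q v w = Q w v) (hQ : Q ≠ 0) {f y1 y2 : ℕ → Fin m → ℂ} {ε1 ε2 : ℕ → ℂ}
    (hy1 : ∀ n, y1 (n + 1) = (1 / ((n : ℂ) + 1)) • ∑ p ∈ antidiagonal n, ε1 p.1 • f p.2)
    (hy2 : ∀ n, y2 (n + 1) = (1 / ((n : ℂ) + 1)) • ∑ p ∈ antidiagonal n, ε2 p.1 • f p.2)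
    (hFF : ∀ N, ∑ p ∈ antidiagonal N, Q (f p.1) (f p.2) = 0)
    (hYF1 : ∀ N, ∑ p ∈ antidiagonal N, Q (y1 p.1) (f p.2) = 0)
    (hYF2 : ∀ N, ∑ p ∈ antidiagonal N, Q (y2 p.1) (f p.2) = 0)
    (hYY : Q (y2 0) (y2 0) = 0)
    (hsp : ∀ ξ : (Fin m → ℂ) →L[ℂ] ℂ, (∀ n, ξ (y2 n) = 0) → ξ = 0)
    (hE2 : ε2 0 ≠ 0) (hw : ε2 0 * ε1 1 - ε1 0 * ε2 1 ≠ 0)
    (hZ : Q (ε2 0 • y1 0 - ε1 0 • y2 0) = 0) : False := by
  classical
  -- some `Q (f i) (f j)` is not zero
  have hex : ∃ n, ∃ i j, i + j = n ∧ Q (f i) (f j) ≠ 0 := by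
    by_contra hcon
    have hff : ∀ i j, Q (f i) (f j) = 0 := by
      intro i j
      by_contra h
      exact hcon ⟨i + j, i, j, rfl, h⟩
    have a1 : ∀ N, Q (y2 0) (f N) = 0 := by
      intro N
      rcases N with _ | N
      · exact locB6_YF0 Q hYF2
      · rw [locB6_YF Q hy2 hYF2 N]
        simp [hff]
    have a2 : ∀ i N, Q (y2 i) (f N) = 0 := by
      intro i N
      rcases i with _ | i
      · exact a1 N
      · rw [locB6_rec Q hy2]
        simp [hff]
    have a3 : ∀ i j, Q (y2 i) (y2 j) = 0 := by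
      have b1 : ∀ i j, Q (y2 (i + 1)) (y2 j) = 0 := by
        intro i j
        rw [locB6_rec Q hy2]
        have : ∀ p ∈ antidiagonal i, ε2 p.1 * Q (f p.2) (y2 j) = 0 := by
          intro p _
          rw [hsym, a2, mul_zero]
        rw [sum_congr rfl this]
        simp
      intro i j
      rcases i with _ | i
      · rcases j with _ | j
        · exact hYY
        · rw [hsym]
          exact b1 j 0
      · exact b1 i j
    have a4 : ∀ i, Q (y2 i) = 0 := fun i => hsp _ (a3 i)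
    apply hQ
    ext1 v
    have : Q v = 0 := hsp _ (fun n => by rw [hsym, a4]; simp)
    simpa using this
  -- the minimal degree
  set n := Nat.find hex with hn
  obtain ⟨i0, j0, hij0, hne0⟩ := Nat.find_spec hex
  have hmin : ∀ i j, i + j < n → Q (f i) (f j) = 0 := by
    intro i j hij
    by_contra h
    exact Nat.find_min hex hij ⟨i, j, rfl, h⟩
  set c : ℕ → ℂ := fun i => Q (f i) (f (n - i)) with hc
  have hcs : ∀ i ≤ n, c (n - i) = c i := by
    intro i hi
    simp only [hc]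
    rw [hsym, Nat.sub_sub_self hi]
  have hanti : ∀ g : ℕ → ℂ, ∑ p ∈ antidiagonal n, g p.1 * Q (f p.1) (f p.2) =
      ∑ i ∈ range (n + 1), c i * g i := by
    intro g
    rw [Finset.Nat.sum_antidiagonal_eq_sum_range_succ (fun i j => g i * Q (f i) (f j)) n]
    exact sum_congr rfl (fun i _ => by simp only [hc]; ring)
  have hc0 : ∑ i ∈ range (n + 1), c i = 0 := by
    have := hanti (fun _ => 1)
    simp only [one_mul, mul_one] at this
    rw [← this]
    exact hFF n
  have hcne : ∃ i ≤ n, c i ≠ 0 := by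
    refine ⟨i0, by omega, ?_⟩
    have : n - i0 = j0 := by omega
    simp only [hc, this]
    exact hne0
  -- values on low degrees
  have hlowY : ∀ N ≤ n, Q (y2 0) (f N) = 0 := by
    intro N hN
    rcases N with _ | N
    · exact locB6_YF0 Q hYF2
    · rw [locB6_YF Q hy2 hYF2 N]
      rw [neg_eq_zero]
      apply sum_eq_zero
      intro p hp
      have hp' := mem_antidiagonal.mp hp
      rw [mul_eq_zero]
      right
      apply sum_eq_zero
      intro q hq
      have hq' := mem_antidiagonal.mp hq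
      rw [hmin _ _ (by omega), mul_zero]
  -- the entry `κ`
  have hκ : Q (y2 0) (f (n + 1)) =
      -(ε2 0 * ∑ i ∈ range (n + 1), c i * (1 / ((i : ℂ) + 1))) := by
    rw [locB6_YF Q hy2 hYF2 n, ← hanti (fun i => 1 / ((i : ℂ) + 1)), mul_sum]
    congr 1
    apply sum_congr rfl
    intro p hp
    have hp' := mem_antidiagonal.mp hp
    rw [sum_eq_single (0, p.1)]
    · ring
    · intro q hq hne
      have hq' := mem_antidiagonal.mp hq
      have : q.1 ≠ 0 := by
        intro h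
        apply hne
        ext
        · exact h
        · simp only
          omega
      rw [hmin _ _ (by omega), mul_zero]
    · intro h
      exact absurd (Finset.HasAntidiagonal.mem_antidiagonal.mpr (by simp)) h
  -- the relation from the kernel vector
  have hc2 : ∑ i ∈ range (n + 1), c i * (1 / ((i : ℂ) + 2)) = 0 := by
    set yZ : ℕ → Fin m → ℂ := fun i => ε2 0 • y1 i - ε1 0 • y2 i with hyZ
    set εZ : ℕ → ℂ := fun i => ε2 0 * ε1 i - ε1 0 * ε2 i with hεZ
    have hyZr : ∀ n, yZ (n + 1) =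
        (1 / ((n : ℂ) + 1)) • ∑ p ∈ antidiagonal n, εZ p.1 • f p.2 := by
      intro k
      simp only [hyZ, hεZ, hy1, hy2, sub_smul, sum_sub_distrib, mul_smul, ← smul_sum]
      module
    have hYFZ : ∀ N, ∑ p ∈ antidiagonal N, Q (yZ p.1) (f p.2) = 0 := by
      intro N
      have h1 := hYF1 N
      have h2 := hYF2 N
      simp only [hyZ, map_sub, map_smul, _root_.sub_apply, _root_.smul_apply,
        sum_sub_distrib, ← smul_sum, h1, h2]
      simp
    have h := locB6_YF Q hyZr hYFZ (n + 1)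
    have hQZ : Q (yZ 0) = 0 := hZ
    rw [hQZ, Finset.Nat.sum_antidiagonal_succ] at h
    have hε0 : εZ 0 = 0 := by
      simp only [hεZ]
      ring
    have h3 : ∀ p ∈ antidiagonal n, (1 / (((p.1 + 1 : ℕ) : ℂ) + 1)) *
        ∑ q ∈ antidiagonal (p.1 + 1), εZ q.1 * Q (f q.2) (f p.2) =
        εZ 1 * ((1 / ((p.1 : ℂ) + 2)) * Q (f p.1) (f p.2)) := by
      intro p hp
      have hp' := mem_antidiagonal.mp hp
      rw [Finset.Nat.sum_antidiagonal_succ, hε0, zero_mul, zero_add, sum_eq_single (0, p.1)]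
      · have e1 : (((p.1 + 1 : ℕ) : ℂ) + 1) = (p.1 : ℂ) + 2 := by
          push_cast
          ring
        rw [e1]
        simp only [zero_add]
        ring
      · intro q hq hne
        have hq' := mem_antidiagonal.mp hq
        have : q.1 ≠ 0 := by
          intro h
          apply hne
          ext
          · exact h
          · simp only
            omega
        rw [hmin _ _ (by omega), mul_zero]
      · intro h
        exact absurd (Finset.HasAntidiagonal.mem_antidiagonal.mpr (by simp)) h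
    simp only [_root_.zero_apply] at h
    rw [sum_congr rfl h3, ← mul_sum, hanti (fun i => 1 / ((i : ℂ) + 2))] at h
    have h4 : εZ 1 * ∑ i ∈ range (n + 1), c i * (1 / ((i : ℂ) + 2)) = 0 := by
      have h5 : ∑ q ∈ antidiagonal 0, εZ q.1 * Q (f q.2) (f (n + 1)) = 0 := by
        simp [hε0]
      simp only [h5, mul_zero, zero_add] at h
      linear_combination h
    exact (mul_eq_zero.mp h4).resolve_left hw
  obtain ⟨h5, h7⟩ := locB_comb c hcs hc0 hc2 hcne
  set S := (range (n + 1)).filter fun i => c i ≠ 0 with hS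
  -- the vectors
  set w : ℕ → Fin m → ℂ := fun a => Nat.casesOn a (y2 0) f with hwdef
  have hw0 : w 0 = y2 0 := rfl
  have hws : ∀ a, w (a + 1) = f a := fun a => rfl
  have hlow : ∀ a b, a + b < n + 2 → Q (w a) (w b) = 0 := by
    intro a b hab
    rcases a with _ | a
    · rcases b with _ | b
      · exact hYY
      · rw [hw0, hws]
        exact hlowY b (by omega)
    · rcases b with _ | b
      · rw [hw0, hws, hsym]
        exact hlowY a (by omega)
      · rw [hws, hws]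
        exact hmin a b (by omega)
  have hSle : ∀ i ∈ S, i ≤ n ∧ c i ≠ 0 := by
    intro i hi
    simp only [hS, Finset.mem_filter, Finset.mem_range] at hi
    exact ⟨by omega, hi.2⟩
  have hAS : ∀ a ∈ S.image (· + 1), a ≤ n + 2 ∧ Q (w a) (w (n + 2 - a)) ≠ 0 := by
    intro a ha
    obtain ⟨i, hi, rfl⟩ := mem_image.mp ha
    obtain ⟨hin, hci⟩ := hSle i hi
    refine ⟨by omega, ?_⟩
    have : n + 2 - (i + 1) = (n - i) + 1 := by omega
    simp only [this, hws]
    exact hci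
  have hScard : (S.image (· + 1)).card = S.card :=
    card_image_of_injective _ (fun a b h => by simpa using h)
  by_cases hk : ∑ i ∈ range (n + 1), c i * (1 / ((i : ℂ) + 1)) = 0
  · have := locB6_lin hrk w hlow (S.image (· + 1)) hAS
    have := h7 hk
    omega
  · have hk' : Q (y2 0) (f (n + 1)) ≠ 0 := by
      rw [hκ]
      exact neg_ne_zero.mpr (mul_ne_zero hE2 hk)
    have hA : ∀ a ∈ insert 0 (insert (n + 2) (S.image (· + 1))),
        a ≤ n + 2 ∧ Q (w a) (w (n + 2 - a)) ≠ 0 := by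
      intro a ha
      rcases mem_insert.mp ha with rfl | ha
      · exact ⟨by omega, hk'⟩
      · rcases mem_insert.mp ha with rfl | ha
        · refine ⟨le_rfl, ?_⟩
          rw [Nat.sub_self, hsym]
          exact hk'
        · exact hAS a ha
    have h1 := locB6_lin hrk w hlow _ hA
    have hn1 : n + 2 ∉ S.image (· + 1) := by
      intro h
      obtain ⟨i, hi, hii⟩ := mem_image.mp h
      have := (hSle i hi).1
      omega
    have hn2 : (0 : ℕ) ∉ insert (n + 2) (S.image (· + 1)) := by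
      intro h
      rcases mem_insert.mp h with h | h
      · omega
      · obtain ⟨i, _, hii⟩ := mem_image.mp h
        omega
    rw [card_insert_of_notMem hn2, card_insert_of_notMem hn1, hScard] at h1
    omega


end Alg


/-- Taylor coefficients -/
private noncomputable def locB6_tc (z : ℂ) (g : ℂ → ℂ) (n : ℕ) : ℂ :=
  iteratedDeriv n g z / (n.factorial : ℂ)

/-- Taylor coefficients of vector valued functions -/
private noncomputable def locB6_vc {m : ℕ} (z : ℂ) (X : ℂ → V m) (n : ℕ) : V m :=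
  fun a => locB6_tc z (fun s => X s a) n

private theorem locB6_tc_mul {z : ℂ} {g h : ℂ → ℂ} (hg : AnalyticAt ℂ g z)
    (hh : AnalyticAt ℂ h z) (n : ℕ) :
    locB6_tc z (fun s => g s * h s) n =
      ∑ p ∈ Finset.HasAntidiagonal.antidiagonal n, locB6_tc z g p.1 * locB6_tc z h p.2 := by
  unfold locB6_tc
  rw [iteratedDeriv_fun_mul hg.contDiffAt hh.contDiffAt,
    Finset.Nat.sum_antidiagonal_eq_sum_range_succ (fun i j =>
      iteratedDeriv i g z / (i.factorial : ℂ) * (iteratedDeriv j h z / (j.factorial : ℂ))) n,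
    Finset.sum_div]
  apply Finset.sum_congr rfl
  intro i hi
  have hi' : i ≤ n := by simpa [Nat.lt_succ_iff] using hi
  have hc : ((n.choose i : ℕ) : ℂ) * (i.factorial : ℂ) * ((n - i).factorial : ℂ) =
      (n.factorial : ℂ) := by
    exact_mod_cast Nat.choose_mul_factorial_mul_factorial hi'
  have h1 : (i.factorial : ℂ) ≠ 0 := by exact_mod_cast Nat.factorial_ne_zero i
  have h2 : ((n - i).factorial : ℂ) ≠ 0 := by exact_mod_cast Nat.factorial_ne_zero (n - i)
  have h3 : ((n.choose i : ℕ) : ℂ) ≠ 0 := by exact_mod_cast (Nat.choose_pos hi').ne'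
  rw [← hc]
  field_simp

private theorem locB6_tc_congr {z : ℂ} {g h : ℂ → ℂ} (hgh : g =ᶠ[𝓝 z] h) (n : ℕ) :
    locB6_tc z g n = locB6_tc z h n := by
  unfold locB6_tc
  rw [hgh.iteratedDeriv_eq]

private theorem locB6_tc_zero {z : ℂ} {g : ℂ → ℂ} (hg : ∀ᶠ s in 𝓝 z, g s = 0) (n : ℕ) :
    locB6_tc z g n = 0 := by
  rw [locB6_tc_congr (h := fun _ => 0) hg n]
  unfold locB6_tc
  simp

private theorem locB6_tc_sum {z : ℂ} {ι : Type*} (I : Finset ι) {g : ι → ℂ → ℂ}
    (hg : ∀ i ∈ I, AnalyticAt ℂ (g i) z) (n : ℕ) :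
    locB6_tc z (fun s => ∑ i ∈ I, g i s) n = ∑ i ∈ I, locB6_tc z (g i) n := by
  unfold locB6_tc
  rw [iteratedDeriv_fun_sum (fun i hi => (hg i hi).contDiffAt), Finset.sum_div]

private theorem locB6_tc_const {z : ℂ} (g : ℂ → ℂ) (c : ℂ) (n : ℕ) :
    locB6_tc z (fun s => g s * c) n = locB6_tc z g n * c := by
  unfold locB6_tc
  rw [iteratedDeriv_mul_const_field]
  ring

private theorem locB6_expand {m : ℕ} (ξ : V m →L[ℂ] ℂ) (x : V m) :
    ξ x = ∑ a, x a * ξ (Pi.single a 1) := by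
  have h : x = ∑ a, x a • (Pi.single a (1 : ℂ) : V m) := by
    have := (Pi.basisFun ℂ (Fin m)).sum_repr x
    simpa using this.symm
  conv_lhs => rw [h]
  simp [map_sum]

private theorem locB6_expand2 {m : ℕ} (Q : Bl m) (x y : V m) :
    Q x y = ∑ a, ∑ b, x a * y b * Q (Pi.single a 1) (Pi.single b 1) := by
  have h : x = ∑ a, x a • (Pi.single a (1 : ℂ) : V m) := by
    have := (Pi.basisFun ℂ (Fin m)).sum_repr x
    simpa using this.symm
  conv_lhs => rw [h]
  rw [map_sum, _root_.sum_apply]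
  apply Finset.sum_congr rfl
  intro a _
  rw [map_smul, _root_.smul_apply, locB6_expand (Q (Pi.single a 1)) y, smul_eq_mul,
    Finset.mul_sum]
  exact Finset.sum_congr rfl (fun b _ => by ring)

private theorem locB6_tc_lin {m : ℕ} {z : ℂ} (ξ : V m →L[ℂ] ℂ) {X : ℂ → V m}
    (hX : ∀ a, AnalyticAt ℂ (fun s => X s a) z) (n : ℕ) :
    locB6_tc z (fun s => ξ (X s)) n = ξ (locB6_vc z X n) := by
  have h1 : (fun s => ξ (X s)) = fun s => ∑ a, X s a * ξ (Pi.single a 1) := by
    funext s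
    exact locB6_expand ξ (X s)
  have h2 : ∀ a, AnalyticAt ℂ (fun s => X s a * ξ (Pi.single a 1)) z := fun a =>
    (hX a).mul analyticAt_const
  rw [h1, locB6_tc_sum Finset.univ (fun a _ => h2 a) n,
    locB6_expand ξ (locB6_vc z X n)]
  exact Finset.sum_congr rfl (fun a _ => locB6_tc_const _ _ _)

private theorem locB6_tc_bil {m : ℕ} {z : ℂ} (Q : Bl m) {X W : ℂ → V m}
    (hX : ∀ a, AnalyticAt ℂ (fun s => X s a) z) (hW : ∀ a, AnalyticAt ℂ (fun s => W s a) z)
    (n : ℕ) :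
    locB6_tc z (fun s => Q (X s) (W s)) n =
      ∑ p ∈ Finset.HasAntidiagonal.antidiagonal n, Q (locB6_vc z X p.1) (locB6_vc z W p.2) := by
  have h1 : (fun s => Q (X s) (W s)) = fun s => ∑ a, ∑ b,
      X s a * W s b * Q (Pi.single a 1) (Pi.single b 1) := by
    funext s
    exact locB6_expand2 Q (X s) (W s)
  have hab : ∀ a b, AnalyticAt ℂ
      (fun s => X s a * W s b * Q (Pi.single a 1) (Pi.single b 1)) z := fun a b =>
    ((hX a).mul (hW b)).mul analyticAt_const
  rw [h1, locB6_tc_sum Finset.univ (fun a _ =>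
    Finset.analyticAt_fun_sum _ (fun b _ => hab a b)) n]
  have h2 : ∀ a, locB6_tc z (fun s => ∑ b, X s a * W s b * Q (Pi.single a 1) (Pi.single b 1)) n =
      ∑ b, ∑ p ∈ Finset.HasAntidiagonal.antidiagonal n,
        locB6_tc z (fun s => X s a) p.1 * locB6_tc z (fun s => W s b) p.2 *
          Q (Pi.single a 1) (Pi.single b 1) := by
    intro a
    rw [locB6_tc_sum Finset.univ (fun b _ => hab a b) n]
    apply Finset.sum_congr rfl
    intro b _
    rw [locB6_tc_const, locB6_tc_mul (hX a) (hW b), Finset.sum_mul]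
  rw [Finset.sum_congr rfl (fun a _ => h2 a)]
  have h3 : ∀ p ∈ Finset.HasAntidiagonal.antidiagonal n, Q (locB6_vc z X p.1) (locB6_vc z W p.2) =
      ∑ a, ∑ b, locB6_tc z (fun s => X s a) p.1 * locB6_tc z (fun s => W s b) p.2 *
          Q (Pi.single a 1) (Pi.single b 1) := fun p _ => locB6_expand2 Q _ _
  rw [Finset.sum_congr rfl h3]
  symm
  rw [Finset.sum_comm]
  apply Finset.sum_congr rfl
  intro a _
  rw [Finset.sum_comm]

theorem caseB_rank {m : ℕ} (Q : Bl m) (hrk : RkLe Q 6) (hsym : ∀ v w, Q v w = Q w v)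
    (hQ : Q ≠ 0) {z : ℂ} {r : ℝ} (hr : 0 < r) {F Y1 Y2 : ℂ → V m} {E1 E2 : ℂ → ℂ}
    (hF : DifferentiableOn ℂ F (Metric.ball z r))
    (dE1 : DifferentiableOn ℂ E1 (Metric.ball z r)) (dE2 : DifferentiableOn ℂ E2 (Metric.ball z r))
    (dY1 : ∀ s ∈ Metric.ball z r, HasDerivAt Y1 (E1 s • F s) s)
    (dY2 : ∀ s ∈ Metric.ball z r, HasDerivAt Y2 (E2 s • F s) s)
    (hFF : ∀ s ∈ Metric.ball z r, Q (F s) (F s) = 0)
    (hYF1 : ∀ s ∈ Metric.ball z r, Q (Y1 s) (F s) = 0)
    (hYF2 : ∀ s ∈ Metric.ball z r, Q (Y2 s) (F s) = 0)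
    (hYY2 : ∀ s ∈ Metric.ball z r, Q (Y2 s) (Y2 s) = 0)
    (hsp : ∀ ξ : V m →L[ℂ] ℂ, (∀ s ∈ Metric.ball z r, ξ (Y2 s) = 0) → ξ = 0)
    (hE2 : E2 z ≠ 0) (hw : E2 z * deriv E1 z - E1 z * deriv E2 z ≠ 0)
    (hZ : Q (E2 z • Y1 z - E1 z • Y2 z) = 0) : False := by
  have hball : Metric.ball z r ∈ 𝓝 z := Metric.ball_mem_nhds z hr
  have hz : z ∈ Metric.ball z r := Metric.mem_ball_self hr
  have hFa : ∀ a, AnalyticAt ℂ (fun s => F s a) z := fun a =>
    (differentiableOn_pi.mp hF a).analyticAt hball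
  have hE1a : AnalyticAt ℂ E1 z := dE1.analyticAt hball
  have hE2a : AnalyticAt ℂ E2 z := dE2.analyticAt hball
  -- solutions
  have hYa : ∀ {E : ℂ → ℂ} {Y : ℂ → V m}, (∀ s ∈ Metric.ball z r, HasDerivAt Y (E s • F s) s) →
      DifferentiableOn ℂ Y (Metric.ball z r) ∧ ∀ a, AnalyticAt ℂ (fun s => Y s a) z := by
    intro E Y hY
    have h1 : DifferentiableOn ℂ Y (Metric.ball z r) := fun s hs =>
      (hY s hs).differentiableAt.differentiableWithinAt
    exact ⟨h1, fun a => (differentiableOn_pi.mp h1 a).analyticAt hball⟩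
  have hYrec : ∀ {E : ℂ → ℂ} {Y : ℂ → V m}, AnalyticAt ℂ E z →
      (∀ s ∈ Metric.ball z r, HasDerivAt Y (E s • F s) s) → ∀ n,
      locB6_vc z Y (n + 1) = (1 / ((n : ℂ) + 1)) •
        ∑ p ∈ Finset.HasAntidiagonal.antidiagonal n, locB6_tc z E p.1 • locB6_vc z F p.2 := by
    intro E Y hEa hY n
    funext a
    have h1 : deriv (fun s => Y s a) =ᶠ[𝓝 z] fun s => E s * F s a := by
      filter_upwards [hball] with s hs
      have := (hasDerivAt_pi.mp (hY s hs) a).deriv
      simpa using this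
    have h2 : locB6_tc z (fun s => Y s a) (n + 1) =
        (1 / ((n : ℂ) + 1)) * locB6_tc z (fun s => E s * F s a) n := by
      rw [← locB6_tc_congr h1 n]
      unfold locB6_tc
      rw [iteratedDeriv_succ', Nat.factorial_succ]
      push_cast
      have h3 : (n.factorial : ℂ) ≠ 0 := by exact_mod_cast Nat.factorial_ne_zero n
      have h4 : (n : ℂ) + 1 ≠ 0 := by exact_mod_cast Nat.succ_ne_zero n
      field_simp
    have h5 : locB6_vc z Y (n + 1) a = locB6_tc z (fun s => Y s a) (n + 1) := rfl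
    rw [h5, h2, locB6_tc_mul hEa (hFa a) n, Pi.smul_apply, Finset.sum_apply, smul_eq_mul]
    rfl
  have hzero : ∀ {X W : ℂ → V m}, (∀ a, AnalyticAt ℂ (fun s => X s a) z) →
      (∀ a, AnalyticAt ℂ (fun s => W s a) z) → (∀ s ∈ Metric.ball z r, Q (X s) (W s) = 0) →
      ∀ N, ∑ p ∈ Finset.HasAntidiagonal.antidiagonal N, Q (locB6_vc z X p.1) (locB6_vc z W p.2) = 0 := by
    intro X W hX hW h N
    rw [← locB6_tc_bil Q hX hW N]
    apply locB6_tc_zero
    filter_upwards [hball] with s hs using h s hs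
  have hv0 : ∀ X : ℂ → V m, locB6_vc z X 0 = X z := by
    intro X
    funext a
    simp [locB6_vc, locB6_tc]
  have ht0 : ∀ g : ℂ → ℂ, locB6_tc z g 0 = g z := by
    intro g
    simp [locB6_tc]
  have ht1 : ∀ g : ℂ → ℂ, locB6_tc z g 1 = deriv g z := by
    intro g
    simp [locB6_tc, iteratedDeriv_one]
  obtain ⟨dY2', hY2a⟩ := hYa dY2
  obtain ⟨dY1', hY1a⟩ := hYa dY1
  refine locB6_alg Q hrk hsym hQ (f := locB6_vc z F) (y1 := locB6_vc z Y1) (y2 := locB6_vc z Y2)
    (ε1 := locB6_tc z E1) (ε2 := locB6_tc z E2) (hYrec hE1a dY1) (hYrec hE2a dY2)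
    (hzero hFa hFa hFF) (hzero hY1a hFa hYF1) (hzero hY2a hFa hYF2) ?_ ?_ ?_ ?_ ?_
  · rw [hv0]
    exact hYY2 z hz
  · intro ξ hξ
    apply hsp ξ
    intro s hs
    have hd : DifferentiableOn ℂ (fun s => ξ (Y2 s)) (Metric.ball z r) :=
      ξ.differentiable.comp_differentiableOn dY2'
    have hsum := Complex.hasSum_taylorSeries_on_ball hd hs
    have h0 : ∀ n : ℕ, iteratedDeriv n (fun s => ξ (Y2 s)) z = 0 := by
      intro n
      have h1 := locB6_tc_lin ξ hY2a n
      rw [hξ n] at h1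
      unfold locB6_tc at h1
      have h3 : (n.factorial : ℂ) ≠ 0 := by exact_mod_cast Nat.factorial_ne_zero n
      exact (div_eq_zero_iff.mp h1).resolve_right h3
    simp only [h0, smul_zero] at hsum
    exact hsum.unique hasSum_zero
  · rw [ht0]
    exact hE2
  · rw [ht0, ht0, ht1, ht1]
    exact hw
  · rw [ht0, ht0, hv0, hv0]
    exact hZ

end Stek.Sv
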