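import Pool.Agent.H.MP_fc2485_gt.Sv6.Star6
import Pool.Agent.H.MP_fc2485_gt.Sv6.LocB6
import Pool.Agent.H.MP_fc2485_gt.Sv.F7B

/-!
Case B for coverings by forms of rank at most six, in any dimension (copy of `coprop_ne`).
-/

set_option maxSynthPendingDepth 3

open Set Filter Topology InnerProductSpace
open scoped ContDiff

namespace Stek.Sv

open Stek Surface GCell

variable {S : Type*} [TopologicalSpace S] {M : Surface S} {σ : ℝ} {m : ℕ} {e : Fin m → S → ℝ}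
  {G : Bl m}

theorem coprop_ne6 [ConnectedSpace S] (H : Ctx M σ e G) (hm2 : 2 ≤ m) (hcov : Covd6 M e)
    (hnd : ∀ (D : V m) (φ : Chart S), φ ∈ M.charts → ∀ z ∈ φ.map.target, 0 < z.im →
      (∀ᶠ w in 𝓝 z, ∀ Q, InK M e Q → Q D (Fv φ e 0 w) = 0) → D = 0)
    {C C' : Set S} (hC : IsCC M C) (hC' : IsCC M C') (hne : C ≠ C') {c c' : GCell M e G}
    (hc : Reach C c) (hc' : Reach C' c') : CoProp c c' := by
  intro hφ z hz hz'
  by_contra hno
  obtain ⟨r, hr, hball⟩ := Metric.mem_nhds_iff.mp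
    (inter_mem ((isOpen_RectI c.a c.b c.c c.d).mem_nhds hz)
      ((isOpen_RectI c'.a c'.b c'.c c'.d).mem_nhds hz'))
  obtain ⟨s0, hs0, hw⟩ := F7B_wron H hm2 hnd hC.sub hC'.sub hc hc' hφ hr
    (fun s hs => (hball hs).1) (fun s hs => (hball hs).2) hno
  obtain ⟨r', hr', hb2⟩ := Metric.mem_nhds_iff.mp (Metric.isOpen_ball.mem_nhds hs0)
  have hO : ∀ s ∈ Metric.ball s0 r', s ∈ c.O := fun s hs => (hball (hb2 hs)).1
  have hO' : ∀ s ∈ Metric.ball s0 r', s ∈ c'.O := fun s hs => (hball (hb2 hs)).2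
  have hs0' : s0 ∈ Metric.ball s0 r' := Metric.mem_ball_self hr'
  have dE2 : ∀ s ∈ Metric.ball s0 r', HasDerivAt c'.E (G (c'.Y s) (Fv c.φ e 0 s)) s :=
    fun s hs => by
      rw [hφ]
      exact c'.dEat (hO' s hs)
  have dY2 : ∀ s ∈ Metric.ball s0 r', HasDerivAt c'.Y (c'.E s • Fv c.φ e 0 s) s := fun s hs => by
    rw [hφ]
    exact c'.dYat (hO' s hs)
  have dE1 : ∀ s ∈ Metric.ball s0 r', HasDerivAt c.E (G (c.Y s) (Fv c.φ e 0 s)) s :=
    fun s hs => c.dEat (hO s hs)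
  have dY1 : ∀ s ∈ Metric.ball s0 r', HasDerivAt c.Y (c.E s • Fv c.φ e 0 s) s :=
    fun s hs => c.dYat (hO s hs)
  obtain ⟨Q, ⟨τ, hQ⟩, hQ0, hrk, hQZ⟩ := cov6_reach H hcov hC hC' hne hc hc' s0
    (RectI_sub _ _ _ _ (hO s0 hs0')) s0 (RectI_sub _ _ _ _ (hO' s0 hs0'))
  have g1 : ∀ s ∈ Metric.ball s0 r', Q (c.Y s) (Fv c.φ e 0 s) = τ * G (c.Y s) (Fv c.φ e 0 s) :=
    fun s hs => good H hC.sub hc hQ s (RectI_sub _ _ _ _ (hO s hs))
  have g2 : ∀ s ∈ Metric.ball s0 r', Q (c'.Y s) (Fv c.φ e 0 s) =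
      τ * G (c'.Y s) (Fv c.φ e 0 s) := fun s hs => by
    have := good H hC'.sub hc' hQ s (RectI_sub _ _ _ _ (hO' s hs))
    rwa [← hφ] at this
  have hτ : τ = 0 := by
    have h1 := congrArg (fun L : V m →L[ℂ] ℂ => L (Fv c.φ e 0 s0)) hQZ
    simp only [map_sub, map_smul, sub_apply, smul_apply, smul_eq_mul, zero_apply, g1 s0 hs0',
      g2 s0 hs0'] at h1
    have h2 : τ * (c'.E s0 * G (c.Y s0) (Fv c.φ e 0 s0) -
      c.E s0 * G (c'.Y s0) (Fv c.φ e 0 s0)) = 0 := by linear_combination h1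
    exact (mul_eq_zero.mp h2).resolve_right hw
  subst hτ
  have hF : DifferentiableOn ℂ (Fv c.φ e 0) (Metric.ball s0 r') :=
    (Props_niceF H c).holo.mono hO
  have hFF : ∀ s ∈ Metric.ball s0 r', Q (Fv c.φ e 0 s) (Fv c.φ e 0 s) = 0 := fun s hs =>
    hQ.conf c.φ c.hφ s (c.sub (RectI_sub _ _ _ _ (hO s hs)))
  have q1 : ∀ s ∈ Metric.ball s0 r', Q (c.Y s) (c.Y s) = 0 := fun s hs => by
    have := quad H hC.sub hc hQ s (RectI_sub _ _ _ _ (hO s hs))
    rwa [zero_mul] at this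
  have q2 : ∀ s ∈ Metric.ball s0 r', Q (c'.Y s) (c'.Y s) = 0 := fun s hs => by
    have := quad H hC'.sub hc' hQ s (RectI_sub _ _ _ _ (hO' s hs))
    rwa [zero_mul] at this
  have g1' : ∀ s ∈ Metric.ball s0 r', Q (c.Y s) (Fv c.φ e 0 s) = 0 := fun s hs => by
    rw [g1 s hs, zero_mul]
  have g2' : ∀ s ∈ Metric.ball s0 r', Q (c'.Y s) (Fv c.φ e 0 s) = 0 := fun s hs => by
    rw [g2 s hs, zero_mul]
  have hd1 := (dE1 s0 hs0').deriv
  have hd2 := (dE2 s0 hs0').deriv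
  by_cases hE2 : c'.E s0 = 0
  · have hE1 : c.E s0 ≠ 0 := by
      intro h0
      apply hw
      rw [hE2, h0]
      ring
    refine caseB_rank Q hrk hQ.symm hQ0 hr' hF
      (fun s hs => (dE2 s hs).differentiableAt.differentiableWithinAt)
      (fun s hs => (dE1 s hs).differentiableAt.differentiableWithinAt) dY2 dY1 hFF g2' g1' q1
      (fun ξ hξ => spanning H hC.sub hc hr' hO ξ hξ) hE1 ?_ ?_
    · rw [hd1, hd2]
      intro h0
      apply hw
      linear_combination -h0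
    · rw [← neg_sub, map_neg, hQZ, neg_zero]
  · refine caseB_rank Q hrk hQ.symm hQ0 hr' hF
      (fun s hs => (dE1 s hs).differentiableAt.differentiableWithinAt)
      (fun s hs => (dE2 s hs).differentiableAt.differentiableWithinAt) dY1 dY2 hFF g1' g2' q2
      (fun ξ hξ => spanning H hC'.sub hc' hr' hO' ξ hξ) hE2 ?_ hQZ
    rw [hd1, hd2]
    exact hw

end Stek.Sv
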