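import Pool.Agent.H.MP_fc2485_gt.Sv8.Final8
import Pool.Agent.H.MP_fc2485_gt.Sv6.F6B
import Pool.Agent.H.MP_fc2485_gt.Sv6.F6G
import Pool.Agent.H.MP_fc2485_gt.Sv6.Nd6
import Pool.Agent.H.MP_fc2485_gt.FinDim

/-!
The separation theorem for maps to balls of dimension at most six.
-/

set_option maxSynthPendingDepth 3

open Set Filter Topology InnerProductSpace
open scoped ContDiff

namespace Stek.Sv

open Stek Surface GCell

variable {S : Type*} [TopologicalSpace S]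

theorem not_PM6 [CompactSpace S] [T2Space S] [ConnectedSpace S] {M : Surface S} {σ : ℝ}
    (hσ : 0 < σ) (hmir : MirC M) (h2 : ∃ C C', IsCC M C ∧ IsCC M C' ∧ C ≠ C') {n : ℕ} :
    ¬ PM6 M σ n := by
  intro hP
  obtain ⟨m, hmn, hm2, e, G, H, hcov, hnd⟩ := min_data6 hσ hmir h2 hP
  rcases Nat.lt_or_ge m 8 with h7 | h8
  · exact not_PM hσ hmir h2 (n := m) (by omega) ⟨e, H.mem, H.ind, hcov.covd⟩
  have hp := coprop_of_ne H h2 fun C C' hC hC' hne c c' hc hc' =>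
    coprop_ne6 H hm2 hcov hnd hC hC' hne hc hc'
  obtain ⟨C, -, hC, -, -⟩ := id h2
  obtain ⟨p, hpb, -⟩ := id hC
  exact Ca.caseA_absurd H (by omega) hp ⟨p, hpb⟩

theorem separated_ball6 [CompactSpace S] [T2Space S] [ConnectedSpace S] (M : Surface S) {σ : ℝ}
    (hσ : 0 < σ) (h2 : ∃ p ∈ M.bdry, ∃ q ∈ M.bdry,
      connectedComponentIn M.bdry p ≠ connectedComponentIn M.bdry q) :
    ∃ p ∈ M.bdry, ∃ q ∈ M.bdry,
      connectedComponentIn M.bdry p ≠ connectedComponentIn M.bdry q ∧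
      ∀ n : ℕ, n ≤ 6 → ∀ Φ : Fin n → S → ℝ, M.IsFree σ Φ → ∃ k, Φ k p ≠ Φ k q := by
  by_contra hno
  push Not at hno
  obtain ⟨M', hmir, hbd, heig, hfree⟩ := exists_dbl M
  have hfin : Module.Finite ℝ (M'.eigenspace σ) := M'.finite_eigenspace σ
  let b := Module.finBasis ℝ (M'.eigenspace σ)
  have h2' : ∃ C C', IsCC M' C ∧ IsCC M' C' ∧ C ≠ C' := by
    obtain ⟨p, hp, q, hq, hne⟩ := h2
    refine ⟨_, _, ⟨p, ?_, rfl⟩, ⟨q, ?_, rfl⟩, ?_⟩
    · rw [hbd]; exact hp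
    · rw [hbd]; exact hq
    · rw [hbd]; exact hne
  refine not_PM6 hσ hmir h2' ⟨fun i => (b i : S → ℝ), fun i => (b i).2, ?_, ?_⟩
  · exact b.linearIndependent.map' (M'.eigenspace σ).subtype (Submodule.ker_subtype _)
  · intro C C' hC hC' hne p hp q hq
    obtain ⟨p0, hp0, rfl⟩ := hC
    obtain ⟨q0, hq0, rfl⟩ := hC'
    have hpb := connectedComponentIn_subset _ _ hp
    have hqb := connectedComponentIn_subset _ _ hq
    rw [connectedComponentIn_eq hp, connectedComponentIn_eq hq, hbd] at hne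
    rw [hbd] at hpb hqb
    obtain ⟨n, hn, Φ, hΦ, h3⟩ := hno p hpb q hqb hne
    exact covered6 b hn (hfree σ n Φ hΦ) h3

end Stek.Sv
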