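import Pool.Agent.H.MP_fc2485_gt.Sv.Nc

/-!
Non-linear continuation: a common non-trivial zero of homogeneous polynomials with nice
coefficients is preserved by continuation.

Proof. For every degree `D` consider the linear map `μ_D(x,y) : ∏ S_{D - deg j} → S_D`,
`(g_j) ↦ ∑ g_j f_j` (`S_D` the homogeneous polynomials of degree `D`, finite-dimensional; only `j` with
`deg j ≤ D`). A common zero `v ≠ 0` gives the functional `eval v ≠ 0` on `S_D` (a monomial
`X_i^D` with `v i ≠ 0`) which kills the image; so the dual map `L x y` of `μ_D(x,y)` has a non-trivial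
kernel for `x ∈ A`, `y ∈ A'`, hence by `nc` for `x ∈ K`, `y ∈ K'`: `μ_D(x,y)` is not surjective for any
`D`. If the polynomials `f j x y` had no common zero except possibly `0`, then by the Nullstellensatz
(`MvPolynomial.vanishingIdeal_zeroLocus_eq_radical`) some power of each `X_i` would be in the ideal, so
all monomials of large degree `D`, and taking homogeneous components `μ_D(x,y)` would be surjective.
(Compare AlgSet.lean for the use of the Nullstellensatz.)
-/

set_option maxSynthPendingDepth 3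

open Set Filter Topology

namespace Stek.Sv

open Finset in
/-- the exponents of degree `D` -/
private abbrev ncpE (N D : ℕ) : Type := ↥(Finset.finsuppAntidiag (Finset.univ : Finset (Fin N)) D)

private theorem ncpE_deg {N D : ℕ} (s : ncpE N D) : (s.1).degree = D := by
  have h := (Finset.mem_finsuppAntidiag.1 s.2).1
  rw [Finsupp.degree_eq_sum]
  exact h

private theorem ncpE_mem {N D : ℕ} {s : Fin N →₀ ℕ} (h : s.degree = D) :
    s ∈ Finset.finsuppAntidiag (Finset.univ : Finset (Fin N)) D := by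
  rw [Finset.mem_finsuppAntidiag]
  refine ⟨?_, Finset.subset_univ _⟩
  rw [Finsupp.degree_eq_sum] at h
  exact h

/-- the functional with the values `w` on the monomials of degree `D` -/
private noncomputable def ncpPhi {N D : ℕ} (w : ncpE N D → ℂ) (p : MvPolynomial (Fin N) ℂ) : ℂ :=
  ∑ s : ncpE N D, w s * p.coeff s.1

private theorem ncpPhi_add {N D : ℕ} (w : ncpE N D → ℂ) (p q : MvPolynomial (Fin N) ℂ) :
    ncpPhi w (p + q) = ncpPhi w p + ncpPhi w q := by
  simp only [ncpPhi, MvPolynomial.coeff_add, mul_add, Finset.sum_add_distrib]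

private theorem ncpPhi_sum {N D : ℕ} (w : ncpE N D → ℂ) {κ : Type*} (S : Finset κ)
    (p : κ → MvPolynomial (Fin N) ℂ) : ncpPhi w (∑ k ∈ S, p k) = ∑ k ∈ S, ncpPhi w (p k) := by
  classical
  induction S using Finset.induction_on with
  | empty => simp [ncpPhi]
  | insert a S ha ih => rw [Finset.sum_insert ha, Finset.sum_insert ha, ncpPhi_add, ih]

private theorem ncpPhi_C {N D : ℕ} (w : ncpE N D → ℂ) (c : ℂ) (p : MvPolynomial (Fin N) ℂ) :
    ncpPhi w (MvPolynomial.C c * p) = c * ncpPhi w p := by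
  simp only [ncpPhi, MvPolynomial.coeff_C_mul, Finset.mul_sum]
  exact Finset.sum_congr rfl fun s _ => by ring

private theorem ncpPhi_monomial {N D : ℕ} (w : ncpE N D → ℂ) (s : ncpE N D) :
    ncpPhi w (MvPolynomial.monomial s.1 1) = w s := by
  classical
  simp only [ncpPhi, MvPolynomial.coeff_monomial]
  rw [Finset.sum_eq_single s]
  · simp
  · intro b _ hb
    have : s.1 ≠ b.1 := fun h => hb (Subtype.ext h.symm)
    simp [this]
  · intro h
    exact absurd (Finset.mem_univ s) h

/-- a homogeneous polynomial of another degree is killed -/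
private theorem ncpPhi_zero {N D d : ℕ} (w : ncpE N D → ℂ) {p : MvPolynomial (Fin N) ℂ}
    (hp : p.IsHomogeneous d) (hd : d ≠ D) : ncpPhi w p = 0 := by
  refine Finset.sum_eq_zero fun s _ => ?_
  rw [hp.coeff_eq_zero (by rw [ncpE_deg s]; exact hd.symm), mul_zero]

/-- the functional of a point -/
private theorem ncpPhi_eval {N D d : ℕ} (v : Fin N → ℂ) {p : MvPolynomial (Fin N) ℂ}
    (hp : p.IsHomogeneous d) (hd : d = D) :
    ncpPhi (fun s : ncpE N D => ∏ i, v i ^ (s.1 i)) p = MvPolynomial.eval v p := by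
  classical
  subst hd
  rw [MvPolynomial.eval_eq', ncpPhi]
  have h1 : ∑ s : ncpE N d, (∏ i, v i ^ (s.1 i)) * p.coeff s.1 =
      ∑ s ∈ Finset.finsuppAntidiag (Finset.univ : Finset (Fin N)) d,
        (∏ i, v i ^ (s i)) * p.coeff s :=
    Finset.sum_coe_sort (Finset.finsuppAntidiag (Finset.univ : Finset (Fin N)) d)
      (fun s => (∏ i, v i ^ (s i)) * p.coeff s)
  rw [h1]
  symm
  refine (Finset.sum_subset (fun s hs => ?_) (fun s _ hs => ?_)).trans
    (Finset.sum_congr rfl fun s _ => mul_comm _ _)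
  · refine ncpE_mem ?_
    by_contra hne
    exact (MvPolynomial.mem_support_iff.1 hs) (hp.coeff_eq_zero hne)
  · rw [MvPolynomial.notMem_support_iff.1 hs, zero_mul]

private theorem ncp_nice_sum {K O : Set ℂ} {κ : Type*} (S : Finset κ) (c : κ → ℂ)
    (F : κ → ℂ → ℂ) (h : ∀ k, Nice K O (F k)) : Nice K O (fun x => ∑ k ∈ S, c k * F k x) := by
  refine ⟨?_, ?_⟩
  · apply continuousOn_finsetSum
    intro s _
    exact continuousOn_const.mul (h s).cont
  · apply DifferentiableOn.fun_sum
    intro s _
    exact (differentiableOn_const _).mul (h s).holo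

/-- the indices `(j, t)` with `t` of degree at most `D` -/
private abbrev ncpT (N D : ℕ) : Type := (k : Fin (D + 1)) × ncpE N k

/-- the transpose of the multiplication map -/
private noncomputable def ncpL {N D : ℕ} {ι : Type*} (f : ι → MvPolynomial (Fin N) ℂ) :
    (ncpE N D → ℂ) →ₗ[ℂ] (ι × ncpT N D → ℂ) where
  toFun w := fun jt => ncpPhi w (MvPolynomial.monomial jt.2.2.1 1 * f jt.1)
  map_add' w w' := by
    funext jt
    simp only [ncpPhi, Pi.add_apply, add_mul, Finset.sum_add_distrib]
  map_smul' c w := by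
    funext jt
    simp only [ncpPhi, Pi.smul_apply, smul_eq_mul, Finset.mul_sum, RingHom.id_apply, mul_assoc]

private theorem ncp_coeff_nice {N : ℕ} {K O : Set ℂ} (f : ℂ → MvPolynomial (Fin N) ℂ)
    (h : ∀ s : Fin N →₀ ℕ, Nice K O (fun x => (f x).coeff s)) (s t : Fin N →₀ ℕ) :
    Nice K O (fun x => (MvPolynomial.monomial t 1 * f x).coeff s) := by
  by_cases hts : t ≤ s
  · have : (fun x => (MvPolynomial.monomial t (1 : ℂ) * f x).coeff s) =
        fun x => (f x).coeff (s - t) := by
      funext x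
      rw [MvPolynomial.coeff_monomial_mul', if_pos hts, one_mul]
    rw [this]
    exact h _
  · have : (fun x => (MvPolynomial.monomial t (1 : ℂ) * f x).coeff s) = fun _ => (0 : ℂ) := by
      funext x
      rw [MvPolynomial.coeff_monomial_mul', if_neg hts]
    rw [this]
    exact ⟨continuousOn_const, differentiableOn_const _⟩

private theorem ncpL_nice {N D : ℕ} {ι : Type*} [Finite ι] {K O : Set ℂ}
    (f : ι → ℂ → MvPolynomial (Fin N) ℂ)
    (h : ∀ j, ∀ s : Fin N →₀ ℕ, Nice K O (fun x => (f j x).coeff s))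
    (w : ncpE N D → ℂ) (l : (ι × ncpT N D → ℂ) →ₗ[ℂ] ℂ) :
    Nice K O (fun x => l (ncpL (fun j => f j x) w)) := by
  classical
  have := Fintype.ofFinite ι
  have h1 : (fun x => l (ncpL (fun j => f j x) w)) = fun x =>
      ∑ jt : ι × ncpT N D, l (fun jt' => if jt = jt' then 1 else 0) *
        (∑ s : ncpE N D, w s * (MvPolynomial.monomial jt.2.2.1 1 * f jt.1 x).coeff s.1) := by
    funext x
    rw [LinearMap.pi_apply_eq_sum_univ l (ncpL (fun j => f j x) w)]
    refine Finset.sum_congr rfl fun jt _ => ?_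
    rw [smul_eq_mul, mul_comm]
    rfl
  rw [h1]
  exact ncp_nice_sum _ _ _ fun jt => ncp_nice_sum _ _ _ fun s =>
    ncp_coeff_nice (f jt.1) (h jt.1) _ _

theorem ncp {N : ℕ} {ι : Type*} [Finite ι] (deg : ι → ℕ) (hdeg : ∀ j, 0 < deg j)
    {K O A K' O' A' : Set ℂ} (hA : Uniq K O A) (hA' : Uniq K' O' A')
    (f : ι → ℂ → ℂ → MvPolynomial (Fin N) ℂ) (hf : ∀ j x y, (f j x y).IsHomogeneous (deg j))
    (h1 : ∀ j, ∀ y ∈ K', ∀ s : Fin N →₀ ℕ, Nice K O (fun x => (f j x y).coeff s))
    (h2 : ∀ j, ∀ x ∈ K, ∀ s : Fin N →₀ ℕ, Nice K' O' (fun y => (f j x y).coeff s))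
    (h : ∀ x ∈ A, ∀ y ∈ A', ∃ v : Fin N → ℂ, v ≠ 0 ∧ ∀ j, MvPolynomial.eval v (f j x y) = 0) :
    ∀ x ∈ K, ∀ y ∈ K', ∃ v : Fin N → ℂ, v ≠ 0 ∧ ∀ j, MvPolynomial.eval v (f j x y) = 0 := by
  classical
  have := Fintype.ofFinite ι
  -- the kernels for every degree
  have hker : ∀ D : ℕ, ∀ x ∈ K, ∀ y ∈ K', ∃ w : ncpE N D → ℂ, w ≠ 0 ∧
      ncpL (D := D) (fun j => f j x y) w = 0 := by
    intro D
    refine nc hA hA' (fun x y => ncpL (D := D) (fun j => f j x y)) ?_ ?_ ?_
    · intro y hy w l
      exact ncpL_nice (fun j x => f j x y) (fun j s => h1 j y hy s) w l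
    · intro x hx w l
      exact ncpL_nice (fun j y => f j x y) (fun j s => h2 j x hx s) w l
    · intro x hx y hy
      obtain ⟨v, hv, hv0⟩ := h x hx y hy
      refine ⟨fun s => ∏ i, v i ^ (s.1 i), ?_, ?_⟩
      · obtain ⟨i, hi⟩ := Function.ne_iff.1 hv
        intro hzero
        have h3 := congrFun hzero ⟨Finsupp.single i D, ncpE_mem (Finsupp.degree_single i D)⟩
        simp only [Pi.zero_apply] at h3
        rw [Finset.prod_eq_zero_iff] at h3
        obtain ⟨k, -, hk⟩ := h3
        by_cases hki : k = i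
        · subst hki
          rw [Finsupp.single_eq_same] at hk
          have hD0 : D ≠ 0 := by
            rintro rfl
            simp at hk
          exact hi ((pow_eq_zero_iff hD0).1 hk)
        · rw [Finsupp.single_eq_of_ne hki] at hk
          simp at hk
      · funext jt
        show ncpPhi _ (MvPolynomial.monomial jt.2.2.1 1 * f jt.1 x y) = 0
        have hhom : (MvPolynomial.monomial jt.2.2.1 (1 : ℂ) * f jt.1 x y).IsHomogeneous
            ((jt.2.2.1).degree + deg jt.1) :=
          (MvPolynomial.isHomogeneous_monomial _ rfl).mul (hf jt.1 x y)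
        by_cases hd : (jt.2.2.1).degree + deg jt.1 = D
        · rw [ncpPhi_eval v hhom hd, map_mul, hv0, mul_zero]
        · exact ncpPhi_zero _ hhom hd
  intro x hx y hy
  by_contra hcon
  push Not at hcon
  set F : ι → MvPolynomial (Fin N) ℂ := fun j => f j x y with hF
  set I : Ideal (MvPolynomial (Fin N) ℂ) := Ideal.span (Set.range F) with hI
  have hpow : ∀ i : Fin N, ∃ n : ℕ, (MvPolynomial.X i : MvPolynomial (Fin N) ℂ) ^ n ∈ I := by
    intro i
    have h3 : (MvPolynomial.X i : MvPolynomial (Fin N) ℂ) ∈ I.radical := by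
      rw [← MvPolynomial.vanishingIdeal_zeroLocus_eq_radical (K := ℂ)]
      rw [MvPolynomial.mem_vanishingIdeal_iff]
      intro v hv
      have h4 : v = 0 := by
        by_contra hne
        obtain ⟨j, hj⟩ := hcon v hne
        apply hj
        have := (MvPolynomial.mem_zeroLocus_iff.1 hv) (F j) (Ideal.subset_span ⟨j, rfl⟩)
        simpa using this
      rw [h4]
      simp
    exact h3
  choose n hn using hpow
  set M : ℕ := ∑ i, n i with hM
  have hnM : ∀ i, n i ≤ M := fun i =>
    Finset.single_le_sum (f := n) (fun _ _ => Nat.zero_le _) (Finset.mem_univ i)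
  set D : ℕ := N * M + 1 with hD
  have hmono : ∀ s : ncpE N D, MvPolynomial.monomial s.1 (1 : ℂ) ∈ I := by
    intro s
    have hs := ncpE_deg s
    have hex : ∃ i, M ≤ s.1 i := by
      by_contra hno
      push Not at hno
      have h3 : (s.1).degree ≤ N * M := by
        rw [Finsupp.degree_eq_sum]
        calc ∑ i, s.1 i ≤ ∑ _i : Fin N, M := Finset.sum_le_sum fun i _ => (hno i).le
          _ = N * M := by simp
      omega
    obtain ⟨i, hi⟩ := hex
    have h4 : MvPolynomial.monomial s.1 (1 : ℂ) =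
        MvPolynomial.monomial (s.1 - Finsupp.single i (n i)) 1 * MvPolynomial.X i ^ (n i) := by
      rw [MvPolynomial.X_pow_eq_monomial, MvPolynomial.monomial_mul, mul_one]
      congr 1
      rw [tsub_add_cancel_of_le]
      rw [Finsupp.single_le_iff]
      exact (hnM i).trans hi
    rw [h4]
    exact I.mul_mem_left _ (hn i)
  obtain ⟨w, hw0, hw⟩ := hker D x hx y hy
  apply hw0
  funext s
  show w s = 0
  rw [← ncpPhi_monomial w s]
  -- the monomial is a combination of the polynomials
  obtain ⟨g, hg⟩ := Ideal.mem_span_range_iff_exists_fun.1 (hmono s)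
  rw [← hg, ncpPhi_sum]
  refine Finset.sum_eq_zero fun j _ => ?_
  have h5 : g j * F j = ∑ t ∈ (g j).support,
      MvPolynomial.C ((g j).coeff t) * (MvPolynomial.monomial t 1 * F j) := by
    conv_lhs => rw [(g j).as_sum, Finset.sum_mul]
    refine Finset.sum_congr rfl fun t _ => ?_
    rw [← mul_assoc, MvPolynomial.C_mul_monomial, mul_one]
  rw [h5, ncpPhi_sum]
  refine Finset.sum_eq_zero fun t _ => ?_
  rw [ncpPhi_C]
  have h6 : ncpPhi w (MvPolynomial.monomial t 1 * F j) = 0 := by
    by_cases ht : t.degree ≤ D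
    · have h7 := congrFun hw (j, ⟨⟨t.degree, by omega⟩, ⟨t, ncpE_mem rfl⟩⟩)
      exact h7
    · have hhom : (MvPolynomial.monomial t (1 : ℂ) * F j).IsHomogeneous
          (t.degree + deg j) :=
        (MvPolynomial.isHomogeneous_monomial _ rfl).mul (hf j x y)
      exact ncpPhi_zero w hhom (by omega)
  rw [h6, mul_zero]

end Stek.Sv
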