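import Pool.Agent.H.MP_fc2485_gt.Sv6.NcP
import Pool.Agent.H.MP_fc2485_gt.Sv6.Rk
import Pool.Agent.H.MP_fc2485_gt.Sv.Uniq

/-!
Continuation of covering forms of bounded rank: `ncp` for a basis of `B`, the linear equations
`Q (Z x y) (e_j) = 0` (degree one) and the minors of `rkLe_basis` (degree `k + 1`, constant
coefficients).
-/

set_option maxSynthPendingDepth 3

open Set Filter Topology

namespace Stek.Sv

/-- the linear polynomial with the coefficients `c` -/
private noncomputable def NcQ_lin {N : ℕ} (c : Fin N → ℂ) : MvPolynomial (Fin N) ℂ :=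
  ∑ i, MvPolynomial.C (c i) * MvPolynomial.X i

private theorem NcQ_lin_hom {N : ℕ} (c : Fin N → ℂ) : (NcQ_lin c).IsHomogeneous 1 := by
  unfold NcQ_lin
  apply MvPolynomial.IsHomogeneous.sum
  intro i _
  have h := (MvPolynomial.isHomogeneous_C (Fin N) (c i)).mul (MvPolynomial.isHomogeneous_X ℂ i)
  simpa using h

private theorem NcQ_lin_eval {N : ℕ} (c v : Fin N → ℂ) :
    MvPolynomial.eval v (NcQ_lin c) = ∑ i, c i * v i := by
  unfold NcQ_lin
  simp [map_sum]

private theorem NcQ_lin_coeff {N : ℕ} (c : Fin N → ℂ) (s : Fin N →₀ ℕ) :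
    (NcQ_lin c).coeff s = ∑ i, c i * (MvPolynomial.X i : MvPolynomial (Fin N) ℂ).coeff s := by
  unfold NcQ_lin
  rw [MvPolynomial.coeff_sum]
  exact Finset.sum_congr rfl fun i _ => MvPolynomial.coeff_C_mul _ _ _

private theorem NcQ_nice_sum {N : ℕ} {K O : Set ℂ} (c : Fin N → ℂ → ℂ) (a : Fin N → ℂ)
    (h : ∀ i, Nice K O (c i)) : Nice K O (fun x => ∑ i, c i x * a i) := by
  refine ⟨?_, ?_⟩
  · apply continuousOn_finsetSum
    intro i _
    exact (h i).cont.mul continuousOn_const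
  · apply DifferentiableOn.fun_sum
    intro i _
    exact (h i).holo.mul (differentiableOn_const _)

/-- the form with the coordinates `v` -/
private noncomputable def NcQ_form {m N : ℕ} {B : Submodule ℂ (Bl m)}
    (b : Module.Basis (Fin N) ℂ B) (v : Fin N → ℂ) : Bl m :=
  ((∑ i, v i • b i : B) : Bl m)

private theorem NcQ_form_apply {m N : ℕ} {B : Submodule ℂ (Bl m)}
    (b : Module.Basis (Fin N) ℂ B) (v : Fin N → ℂ) (p q : V m) :
    NcQ_form b v p q = ∑ i, (b i : Bl m) p q * v i := by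
  unfold NcQ_form
  rw [Submodule.coe_sum]
  simp only [Submodule.coe_smul, ContinuousLinearMap.sum_apply, ContinuousLinearMap.smul_apply,
    smul_eq_mul]
  exact Finset.sum_congr rfl fun i _ => mul_comm _ _

/-- the polynomials -/
private noncomputable def NcQ_pol {m N k : ℕ} {B : Submodule ℂ (Bl m)}
    (b : Module.Basis (Fin N) ℂ B) (z : V m) :
    (Fin m) ⊕ ((Fin (k + 1) → Fin m) × (Fin (k + 1) → Fin m)) → MvPolynomial (Fin N) ℂ
  | Sum.inl j => NcQ_lin (fun i => (b i : Bl m) z (Pi.single j 1))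
  | Sum.inr p => Matrix.det (Matrix.of fun r c : Fin (k + 1) =>
      NcQ_lin (fun i => (b i : Bl m) (Pi.single (p.1 r) 1) (Pi.single (p.2 c) 1)))

/-- the degrees -/
private def NcQ_deg {m k : ℕ} :
    (Fin m) ⊕ ((Fin (k + 1) → Fin m) × (Fin (k + 1) → Fin m)) → ℕ
  | Sum.inl _ => 1
  | Sum.inr _ => k + 1

private theorem NcQ_pol_hom {m N k : ℕ} {B : Submodule ℂ (Bl m)}
    (b : Module.Basis (Fin N) ℂ B) (z : V m)
    (j : (Fin m) ⊕ ((Fin (k + 1) → Fin m) × (Fin (k + 1) → Fin m))) :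
    (NcQ_pol b z j).IsHomogeneous (NcQ_deg j) := by
  rcases j with j | p
  · exact NcQ_lin_hom _
  · change (Matrix.det (Matrix.of fun r c : Fin (k + 1) =>
      NcQ_lin (fun i => (b i : Bl m) (Pi.single (p.1 r) 1) (Pi.single (p.2 c) 1)))).IsHomogeneous
        (k + 1)
    rw [Matrix.det_apply]
    apply MvPolynomial.IsHomogeneous.sum
    intro s _
    have h1 : (∏ i : Fin (k + 1), (Matrix.of fun r c : Fin (k + 1) =>
        NcQ_lin (fun i => (b i : Bl m) (Pi.single (p.1 r) 1) (Pi.single (p.2 c) 1))) (s i) i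
          ).IsHomogeneous (∑ _i : Fin (k + 1), 1) := by
      apply MvPolynomial.IsHomogeneous.prod
      intro i _
      exact NcQ_lin_hom _
    have h2 : (∑ _i : Fin (k + 1), 1) = k + 1 := by simp
    rw [h2] at h1
    rcases Int.units_eq_one_or (Equiv.Perm.sign s) with hs | hs
    · rw [hs, one_smul]
      exact h1
    · rw [hs, Units.neg_smul, one_smul]
      exact (MvPolynomial.homogeneousSubmodule (Fin N) ℂ (k + 1)).neg_mem h1

private theorem NcQ_eval {m N k : ℕ} {B : Submodule ℂ (Bl m)}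
    (b : Module.Basis (Fin N) ℂ B) (z : V m) (v : Fin N → ℂ) :
    (∀ j, MvPolynomial.eval v (NcQ_pol (k := k) b z j) = 0) ↔
      (RkLe (NcQ_form b v) k ∧ NcQ_form b v z = 0) := by
  have hdet : ∀ p : (Fin (k + 1) → Fin m) × (Fin (k + 1) → Fin m),
      MvPolynomial.eval v (NcQ_pol (k := k) b z (Sum.inr p)) =
        Matrix.det (Matrix.of fun r c => NcQ_form b v (Pi.single (p.1 r) 1)
          (Pi.single (p.2 c) 1)) := by
    intro p
    change MvPolynomial.eval v (Matrix.det (Matrix.of fun r c : Fin (k + 1) =>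
      NcQ_lin (fun i => (b i : Bl m) (Pi.single (p.1 r) 1) (Pi.single (p.2 c) 1)))) = _
    rw [RingHom.map_det]
    congr 1
    ext r c
    simp only [RingHom.mapMatrix_apply, Matrix.map_apply, Matrix.of_apply]
    rw [NcQ_lin_eval, NcQ_form_apply]
  have hlin : ∀ j : Fin m, MvPolynomial.eval v (NcQ_pol (k := k) b z (Sum.inl j)) =
      NcQ_form b v z (Pi.single j 1) := by
    intro j
    change MvPolynomial.eval v (NcQ_lin (fun i => (b i : Bl m) z (Pi.single j 1))) = _
    rw [NcQ_lin_eval, NcQ_form_apply]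
  constructor
  · intro h
    refine ⟨rkLe_basis fun r c => ?_, ?_⟩
    · rw [← hdet (r, c)]
      exact h _
    · ext w
      have h1 : ∀ j : Fin m, NcQ_form b v z (Pi.single j 1) = 0 := fun j => by
        rw [← hlin j]
        exact h _
      have h2 : w = ∑ j, w j • (Pi.single j (1 : ℂ) : V m) := by
        conv_lhs => rw [pi_eq_sum_univ w]
        refine Finset.sum_congr rfl fun j _ => ?_
        congr 1
        ext l
        simp [Pi.single_apply, eq_comm]
      rw [h2, map_sum]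
      simp [h1]
  · rintro ⟨h1, h2⟩ (j | p)
    · rw [hlin, h2]
      rfl
    · rw [hdet]
      exact h1 _ _

theorem ncq {m k : ℕ} (B : Submodule ℂ (Bl m)) {K O A K' O' A' : Set ℂ} (hA : Uniq K O A)
    (hA' : Uniq K' O' A') (Z : ℂ → ℂ → V m) (h1 : ∀ y ∈ K', Nice K O (fun x => Z x y))
    (h2 : ∀ x ∈ K, Nice K' O' (fun y => Z x y))
    (h : ∀ x ∈ A, ∀ y ∈ A', ∃ Q ∈ B, Q ≠ 0 ∧ RkLe Q k ∧ Q (Z x y) = 0) :
    ∀ x ∈ K, ∀ y ∈ K', ∃ Q ∈ B, Q ≠ 0 ∧ RkLe Q k ∧ Q (Z x y) = 0 := by
  classical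
  let b := Module.finBasis ℂ B
  have hform : ∀ v : Fin (Module.finrank ℂ B) → ℂ, v ≠ 0 → NcQ_form b v ≠ 0 := by
    intro v hv h0
    apply hv
    have h3 : (∑ i, v i • b i : B) = 0 := by
      apply Subtype.ext
      exact h0
    have h4 := Fintype.linearIndependent_iff.mp b.linearIndependent v h3
    exact funext h4
  have hfac : ∀ Q ∈ B, ∃ v : Fin (Module.finrank ℂ B) → ℂ, NcQ_form b v = Q := by
    intro Q hQ
    refine ⟨fun i => b.repr ⟨Q, hQ⟩ i, ?_⟩
    unfold NcQ_form
    rw [b.sum_repr]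
  have hlinN : ∀ (K O : Set ℂ) (z : ℂ → V m), Nice K O z → ∀ (j : Fin m)
      (s : Fin (Module.finrank ℂ B) →₀ ℕ), Nice K O (fun x =>
        (NcQ_pol (k := k) b (z x) (Sum.inl j)).coeff s) := by
    intro K O z hz j s
    have h5 : (fun x => (NcQ_pol (k := k) b (z x) (Sum.inl j)).coeff s) = fun x =>
        ∑ i, (b i : Bl m) (z x) (Pi.single j 1) *
          (MvPolynomial.X i : MvPolynomial (Fin (Module.finrank ℂ B)) ℂ).coeff s := by
      funext x
      exact NcQ_lin_coeff _ s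
    rw [h5]
    apply NcQ_nice_sum (fun i x => (b i : Bl m) (z x) (Pi.single j 1))
    intro i
    exact Nice.bil (b i : Bl m) hz (Nice.const K O _)
  have hmain := ncp (ι := (Fin m) ⊕ ((Fin (k + 1) → Fin m) × (Fin (k + 1) → Fin m)))
    (NcQ_deg (m := m) (k := k)) (by
      rintro (j | p)
      · exact Nat.one_pos
      · exact Nat.succ_pos k) hA hA'
    (fun j x y => NcQ_pol (k := k) b (Z x y) j) (fun j x y => NcQ_pol_hom b (Z x y) j)
    (by
      rintro (j | p) y hy s
      · exact hlinN K O (fun x => Z x y) (h1 y hy) j s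
      · exact Nice.const K O (MvPolynomial.coeff s (NcQ_pol (k := k) b 0 (Sum.inr p))))
    (by
      rintro (j | p) x hx s
      · exact hlinN K' O' (fun y => Z x y) (h2 x hx) j s
      · exact Nice.const K' O' (MvPolynomial.coeff s (NcQ_pol (k := k) b 0 (Sum.inr p))))
    (by
      intro x hx y hy
      obtain ⟨Q, hQB, hQ0, hQk, hQz⟩ := h x hx y hy
      obtain ⟨v, rfl⟩ := hfac Q hQB
      refine ⟨v, ?_, (NcQ_eval b (Z x y) v).mpr ⟨hQk, hQz⟩⟩
      rintro rfl
      apply hQ0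
      unfold NcQ_form
      simp)
  intro x hx y hy
  obtain ⟨v, hv, hv'⟩ := hmain x hx y hy
  obtain ⟨h6, h7⟩ := (NcQ_eval b (Z x y) v).mp hv'
  refine ⟨NcQ_form b v, ?_, hform v hv, h6, h7⟩
  unfold NcQ_form
  exact Subtype.coe_prop _

end Stek.Sv
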