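import Pool.Agent.H.MP_fc2485_gt.Sv6.NcQ
import Pool.Agent.H.MP_fc2485_gt.Sv.Star

/-!
The covering relation by forms of rank at most six (same scheme as cov_base, cov_step, cov_reach,
with `ncq` instead of `nc`).
-/

set_option maxSynthPendingDepth 3

open Set Filter Topology InnerProductSpace
open scoped ContDiff

namespace Stek.Sv

open Stek Surface GCell

variable {S : Type*} [TopologicalSpace S] {M : Surface S} {σ : ℝ} {m : ℕ} {e : Fin m → S → ℝ}
  {G : Bl m}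

/-- the covering relation -/
def CovR6 (c c' : GCell M e G) : Prop :=
  ∀ x ∈ c.K, ∀ y ∈ c'.K, ∃ Q ∈ BC M e, Q ≠ 0 ∧ RkLe Q 6 ∧
    Q (c'.E y • c.Y x - c.E x • c'.Y y) = 0

/-- near a link all points are links -/
private theorem Star6_near (H : Ctx M σ e G) {c c1 : GCell M e G} {x : S} (hl : c.LinkAt c1 x) :
    ∃ r > 0, ∀ z ∈ Metric.ball (c1.φ.map x) r, ∃ x', c1.φ.map x' = z ∧ c.LinkAt c1 x' := by
  have hs := link_symm H hl
  obtain ⟨r, hT, hb⟩ := link_germ H hs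
  refine ⟨r, hT.hr, fun z hz => ?_⟩
  obtain ⟨ht, him, hsrc, -, -, -, -⟩ := hT.eq z hz
  obtain ⟨hzO, hTO, hY, hE, -⟩ := hb z hz
  have hzz : c1.φ.map (c1.φ.map.symm z) = z := c1.φ.map.right_inv ht
  refine ⟨c1.φ.map.symm z, hzz, hsrc, c1.φ.map.map_target ht, hTO, ?_, ?_, ?_, ?_⟩
  · rw [hzz]; exact hzO
  · rw [hzz]; exact hY.symm
  · rw [hzz]; exact hE.symm
  · refine trans_symm c1.hφ c.hφ (c1.φ.map.map_target ht) hsrc (by rw [hzz]; exact him) ?_
    rw [hzz]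
    filter_upwards [Metric.isOpen_ball.mem_nhds hz] with w hw
    exact (hT.holo w hw).differentiableAt (Metric.isOpen_ball.mem_nhds hw)

private theorem Star6_uniq (c1 : GCell M e G) {w : ℂ} (hw : w ∈ c1.O) {r : ℝ} (hr : 0 < r) :
    Uniq c1.K c1.O (Metric.ball w r ∩ c1.O) :=
  uniq_open c1.hab c1.hcd Metric.isOpen_ball ⟨w, Metric.mem_ball_self hr, hw⟩

private theorem Star6_niceY (c : GCell M e G) : Nice c.K c.O c.Y :=
  c.sol.niceY (starB_O_open c) (starB_OK c)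

private theorem Star6_niceE (c : GCell M e G) : Nice c.K c.O c.E :=
  c.sol.niceE (starB_O_open c) (starB_OK c)

private theorem Star6_nice1 (c c' : GCell M e G) (y : ℂ) :
    Nice c.K c.O (fun x => c'.E y • c.Y x - c.E x • c'.Y y) :=
  ((Nice.const c.K c.O (c'.E y)).smul (Star6_niceY c)).sub
    ((Star6_niceE c).smul (Nice.const c.K c.O (c'.Y y)))

private theorem Star6_nice2 (c c' : GCell M e G) (x : ℂ) :
    Nice c'.K c'.O (fun y => c'.E y • c.Y x - c.E x • c'.Y y) :=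
  ((Star6_niceE c').smul (Nice.const c'.K c'.O (c.Y x))).sub
    ((Nice.const c'.K c'.O (c.E x)).smul (Star6_niceY c'))

theorem cov6_base (H : Ctx M σ e G) (hcov : Covd6 M e) {C C' : Set S} (hC : IsCC M C)
    (hC' : IsCC M C') (hne : C ≠ C') {c c' : GCell M e G} (hc : c.IsBase C)
    (hc' : c'.IsBase C') : CovR6 c c' := by
  refine ncq (BC M e) (uniq_bottom c.hab c.hcd) (uniq_bottom c'.hab c'.hcd)
    (fun x y => c'.E y • c.Y x - c.E x • c'.Y y) (fun y _ => Star6_nice1 c c' y)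
    (fun x _ => Star6_nice2 c c' x) ?_
  rintro x ⟨hx, hxim⟩ y ⟨hy, hyim⟩
  obtain ⟨Q, hQ, hrk, hz⟩ :=
    hcov C C' hC hC' hne _ (starB_mem hc hx hxim) _ (starB_mem hc' hy hyim)
  obtain ⟨e1, hb⟩ := starB_uv hc hx hxim
  obtain ⟨e2, -⟩ := starB_uv hc' hy hyim
  refine ⟨Q, ⟨1, hQ.inB⟩, ?_, hrk, ?_⟩
  · intro h0
    have h1 := hQ.sphere _ hb
    rw [h0] at h1
    simp at h1
  · show Q (c'.E y • c.Y x - c.E x • c'.Y y) = 0
    rw [e1, e2]
    have : c'.E y • c.E x • uv e (c.φ.map.symm x) - c.E x • c'.E y • uv e (c'.φ.map.symm y) =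
        (c'.E y * c.E x) • (uv e (c.φ.map.symm x) - uv e (c'.φ.map.symm y)) := by
      rw [smul_smul, smul_smul, smul_sub, mul_comm (c.E x) (c'.E y)]
    rw [this, map_smul, hz, smul_zero]

theorem cov6_step (H : Ctx M σ e G) {c c1 c' : GCell M e G} {x : S} (h : CovR6 c c')
    (hl : c.LinkAt c1 x) : CovR6 c1 c' := by
  obtain ⟨r, hr, hb⟩ := Star6_near H hl
  have hw : c1.φ.map x ∈ c1.O := hl.2.2.2.1
  refine ncq (BC M e) (Star6_uniq c1 hw hr) (uniq_self c'.K c'.O)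
    (fun x y => c'.E y • c1.Y x - c1.E x • c'.Y y) (fun y _ => Star6_nice1 c1 c' y)
    (fun x _ => Star6_nice2 c1 c' x) ?_
  intro z hz y hy
  obtain ⟨x', hx', hl'⟩ := hb z hz.1
  obtain ⟨Q, hQ, hQ0, hrk, hQ1⟩ := h _ (RectI_sub _ _ _ _ hl'.2.2.1) y hy
  refine ⟨Q, hQ, hQ0, hrk, ?_⟩
  have h2 := hl'.2.2.2.2.1
  have h3 := hl'.2.2.2.2.2.1
  rw [hx'] at h2 h3
  rw [h2, h3] at hQ1
  exact hQ1

private theorem Star6_symm {c c' : GCell M e G} (h : CovR6 c c') : CovR6 c' c := by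
  intro x hx y hy
  obtain ⟨Q, h1, h2, h3, h4⟩ := h y hy x hx
  refine ⟨Q, h1, h2, h3, ?_⟩
  rw [show c.E y • c'.Y x - c'.E x • c.Y y = -(c'.E x • c.Y y - c.E y • c'.Y x) by abel, map_neg,
    h4, neg_zero]

theorem cov6_reach (H : Ctx M σ e G) (hcov : Covd6 M e) {C C' : Set S} (hC : IsCC M C)
    (hC' : IsCC M C') (hne : C ≠ C') {c c' : GCell M e G} (hc : Reach C c)
    (hc' : Reach C' c') : CovR6 c c' := by
  induction hc with
  | base hb =>
    induction hc' with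
    | base hb' => exact cov6_base H hcov hC hC' hne hb hb'
    | step _ hl ih => exact Star6_symm (cov6_step H (Star6_symm ih) hl)
  | step _ hl ih => exact cov6_step H ih hl

end Stek.Sv
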